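import Pool.Agent.BDP.Pmain
import Pool.Agent.BDP.Prop2

set_option autoImplicit false

/-!
# The BDP Selmer group at the prime 2 for residually unipotent representations

`K = ℚ(√-d)` with `d` a prime which is 7 modulo 16, or the product of a prime which is 3 and a
prime which is 5 modulo 8. Let `q` be a prime of `K` above 2 and let `K_∞ / K` be a
`ℤ₂`-extension unramified outside 2. Let `A` be a divisible discrete `ℤ₂[G_K]`-module of finite
corank on whose 2-torsion the group `G_K` acts through a 2-group, unramified outside 2 and a set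
`S` with only finitely many places `w i` of `K_∞` above it. Then the dual of the Selmer group with
no condition at the other prime above 2 and trivial at `q` is finitely generated over `ℤ₂`, with
explicit bounds.
-/

namespace Pool.Agent.Results.MP_12e0aa_nt.BDPAtTwo

open Pool.BDP
open scoped NumberField Pointwise

theorem result (K : Type) [Field K] [NumberField K] (hK : Module.finrank ℚ K = 2) (r : K)
    (d : ℕ) (hr : r ^ 2 = -(d : K))
    (hd : (d.Prime ∧ d % 16 = 7) ∨
      ∃ l1 l2 : ℕ, l1.Prime ∧ l2.Prime ∧ l1 % 8 = 3 ∧ l2 % 8 = 5 ∧ d = l1 * l2)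
    (q : Ideal (𝓞 K)) (hq : q.IsPrime) (h2 : (2 : 𝓞 K) ∈ q) (κ : Z2Ext K)
    (A : GMod K) (m : ℕ) (hA : A.Disc) (hm : A.Cofree m) (hU : A.Unip)
    (S R : Set (Ideal (𝓞 K))) (hS : A.Unram S) (hR : R ⊆ S) (s : ℕ) (w : Fin s → Ideal (Zb K))
    (hw : Repr κ S s w) :
    ∃ t : Fin s → GK K, (∀ i, t i ∈ Ine (w i)) ∧ Bound A κ q R (s * m) ∧
      ((∀ i, below (w i) ∉ R) → Bound A κ q R (∑ i, A.rk (t i))) := by
  have hNo : NoQuad q := by
    rcases hd with ⟨h1, h3⟩ | ⟨l1, l2, hl1, hl2, h1m, h2m, rfl⟩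
    · exact noQuad_field hK r d h1 h3 hr q hq h2
    · exact noQuad_field2 hK r l1 l2 hl1 hl2 h1m h2m hr q hq h2
  exact packed q hq hNo κ A m hA hm hU S R hS hR s w hw

end Pool.Agent.Results.MP_12e0aa_nt.BDPAtTwo
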